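import Pool.Agent.W84.T.Defs
import Pool.Agent.W125.EC.Geo
import Pool.Agent.W803.GA.Sect

/-!
Project T8 (helper84), parts ORD and ARC (helper359): sectors and cones.
-/

set_option autoImplicit false

namespace Pool.Agent.W359.T

open Finset Filter
open Pool.Agent.H376R2.MR
open Pool.Agent.W78.GA
open Pool.Agent.W78.EC (Gi cone aix SP)
open Pool.Agent.W714.EC (hD01 nmZ mem_cone mem_edge)
open Pool.Agent.W125.EC (dt_sin ip_edge)

lemma polar {z : Gi} (hz : z ≠ 0) : (z.re : ℝ) = Real.sqrt (nm z) * Real.cos (ang z) ∧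
    (z.im : ℝ) = Real.sqrt (nm z) * Real.sin (ang z) := by
  have h2 : Real.sqrt (4 * ((1 : ℤ) : ℝ) - ((0 : ℤ) : ℝ) ^ 2) = 2 := by
    rw [show (4 * ((1 : ℤ) : ℝ) - ((0 : ℤ) : ℝ) ^ 2) = 2 ^ 2 by norm_num]
    exact Real.sqrt_sq (by norm_num)
  have hre : (tc z).re = z.re := by
    rw [tc_re]; push_cast; ring
  have him : (tc z).im = z.im := by
    rw [tc_im, h2]; ring
  have h0 : tc z ≠ 0 := tc_ne_zero hD01 hz
  rw [← norm_tc hD01]
  unfold ang
  rw [Complex.norm_mul_cos_arg, Complex.norm_mul_sin_arg, hre, him]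
  exact ⟨rfl, rfl⟩

lemma sqrt_pos' {z : Gi} (hz : z ≠ 0) : 0 < Real.sqrt (nm z) :=
  Real.sqrt_pos.2 (nm_posR hD01 hz)

lemma sin_pos_of_dt {v u : Gi} (hv : v ≠ 0) (hu : u ≠ 0) (h : 0 < dt v u) :
    0 < Real.sin (ang u - ang v) := by
  have h1 := dt_sin hv hu
  have h2 : (0 : ℝ) < (dt v u : ℝ) := by exact_mod_cast h
  rw [h1] at h2
  exact (pos_iff_pos_of_mul_pos h2).1 (mul_pos (sqrt_pos' hv) (sqrt_pos' hu))

lemma dt_pos_of_sin {v u : Gi} (hv : v ≠ 0) (hu : u ≠ 0) (h : 0 < Real.sin (ang u - ang v)) :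
    0 < dt v u := by
  have h1 := dt_sin hv hu
  have h2 : (0 : ℝ) < (dt v u : ℝ) := by
    rw [h1]
    exact mul_pos (mul_pos (sqrt_pos' hv) (sqrt_pos' hu)) h
  exact_mod_cast h2

lemma sin_pos_cases {x : ℝ} (h2 : x < 2 * Real.pi) (h : 0 < Real.sin x) :
    (0 < x ∧ x < Real.pi) ∨ x < -Real.pi := by
  by_contra hc
  push Not at hc
  obtain ⟨h3, h4⟩ := hc
  rcases le_or_gt x 0 with h5 | h5
  · exact absurd h (not_lt.2 (Real.sin_nonpos_of_nonpos_of_neg_pi_le h5 h4))
  · have h6 := h3 h5
    have h7 : 0 ≤ Real.sin (x - Real.pi) :=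
      Real.sin_nonneg_of_nonneg_of_le_pi (by linarith) (by linarith)
    rw [Real.sin_sub_pi] at h7
    linarith

lemma aix_between {n : ℕ} {z z' w : Gi} (h : aix n z = aix n z') (h1 : ang z ≤ ang w)
    (h2 : ang w ≤ ang z') : aix n w = aix n z := by
  have hpi := Real.pi_pos
  have hn : (0 : ℝ) ≤ n := by positivity
  have a1 : aix n z ≤ aix n w := by
    unfold aix
    exact Int.floor_le_floor (by gcongr)
  have a2 : aix n w ≤ aix n z' := by
    unfold aix
    exact Int.floor_le_floor (by gcongr)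
  rw [← h] at a2
  exact le_antisymm a2 a1

theorem ord : Pool.Agent.W84.T.S_ORD := by
  intro Y X n e z z' hY hYX hn he hz hp hX hzz hno
  have hip := ip_edge he
  obtain ⟨a, b⟩ := e
  rw [mem_edge] at he
  rw [mem_cone] at hz ⊢
  obtain ⟨⟨⟨hpa, hna⟩, hpb, hnb⟩, hab, hYs⟩ := he
  obtain ⟨⟨hpz, hnz⟩, haz, hzb⟩ := hz
  simp only at hpa hna hpb hnb hab hYs haz hzb hip ⊢
  have a0 := prim_ne_zero hpa
  have b0 := prim_ne_zero hpb
  have z0 := prim_ne_zero hpz
  have z0' := prim_ne_zero hp
  have hpi := Real.pi_pos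
  have s1 := sin_pos_of_dt a0 b0 (by rw [hab]; norm_num)
  have s2 := sin_pos_of_dt a0 z0 haz
  have s3 := sin_pos_of_dt z0 b0 hzb
  have hA1 : -Real.pi < ang a := Complex.neg_pi_lt_arg _
  have hA2 : ang a ≤ Real.pi := Complex.arg_le_pi _
  have hB1 : -Real.pi < ang b := Complex.neg_pi_lt_arg _
  have hB2 : ang b ≤ Real.pi := Complex.arg_le_pi _
  have hZ1 : -Real.pi < ang z := Complex.neg_pi_lt_arg _
  have hZ2 : ang z ≤ Real.pi := Complex.arg_le_pi _
  have hW1 : -Real.pi < ang z' := Complex.neg_pi_lt_arg _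
  have hW2 : ang z' ≤ Real.pi := Complex.arg_le_pi _
  -- no coarse vector between
  have hmem : ∀ w : Gi, prim w → (nm w : ℝ) ≤ Y →
      ¬ (ang z ≤ ang w ∧ ang w ≤ ang z') ∧ ¬ (ang z' ≤ ang w ∧ ang w ≤ ang z) := by
    intro w hw1 hw2
    have hw : w ∈ pball 0 1 Y := (mem_pball hD01).2 ⟨hw1, hw2⟩
    refine ⟨fun h => hno w hw (aix_between hzz h.1 h.2), fun h => hno w hw ?_⟩
    rw [aix_between hzz.symm h.1 h.2, hzz]
  obtain ⟨na1, na2⟩ := hmem a hpa hna
  obtain ⟨nb1, nb2⟩ := hmem b hpb hnb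
  -- cosine of the angle between a and b
  obtain ⟨pa1, pa2⟩ := polar a0
  obtain ⟨pb1, pb2⟩ := polar b0
  have hcos : 0 ≤ Real.cos (ang b - ang a) := by
    have h1 : (ip a b : ℝ) = Real.sqrt (nm a) * Real.sqrt (nm b) * Real.cos (ang b - ang a) := by
      unfold ip
      push_cast
      rw [pa1, pa2, pb1, pb2, Real.cos_sub]
      ring
    have h2 : (0 : ℝ) ≤ (ip a b : ℝ) := by exact_mod_cast hip
    by_contra hc
    push Not at hc
    have h3 := mul_neg_of_pos_of_neg (mul_pos (sqrt_pos' a0) (sqrt_pos' b0)) hc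
    linarith
  refine ⟨⟨hp, hX⟩, ?_⟩
  rcases sin_pos_cases (by linarith) s1 with ⟨c1, c2⟩ | c1
  · -- a before b
    have c3 : ang b - ang a ≤ Real.pi / 2 := by
      by_contra hc
      push Not at hc
      have := Real.cos_neg_of_pi_div_two_lt_of_lt hc (by linarith)
      linarith
    have d1 : ang a < ang z := by
      rcases sin_pos_cases (by linarith) s2 with ⟨d, -⟩ | d
      · linarith
      · rcases sin_pos_cases (by linarith) s3 with ⟨-, d'⟩ | d' <;> linarith
    have d2 : ang z < ang b := by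
      rcases sin_pos_cases (by linarith) s2 with ⟨-, d⟩ | d
      · rcases sin_pos_cases (by linarith) s3 with ⟨d', -⟩ | d' <;> linarith
      · linarith
    have d3 : ang a < ang z' := by
      by_contra hc
      exact na2 ⟨not_lt.1 hc, d1.le⟩
    have d4 : ang z' < ang b := by
      by_contra hc
      exact nb1 ⟨d2.le, not_lt.1 hc⟩
    exact ⟨dt_pos_of_sin a0 z0' (Real.sin_pos_of_pos_of_lt_pi (by linarith) (by linarith)),
      dt_pos_of_sin z0' b0 (Real.sin_pos_of_pos_of_lt_pi (by linarith) (by linarith))⟩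
  · -- the negative real axis
    have c3 : ang b - ang a ≤ -(3 * Real.pi / 2) := by
      by_contra hc
      push Not at hc
      have h1 : Real.cos (ang b - ang a + 2 * Real.pi) < 0 :=
        Real.cos_neg_of_pi_div_two_lt_of_lt (by linarith) (by linarith)
      rw [Real.cos_add_two_pi] at h1
      linarith
    have e1 : Real.pi / 2 < ang a := by linarith
    have e2 : ang b ≤ -(Real.pi / 2) := by linarith
    have hsb : Real.sin (ang b) < 0 := Real.sin_neg_of_neg_of_neg_pi_lt (by linarith) hB1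
    have hcb : Real.cos (ang b) ≤ 0 := by
      rw [← Real.cos_neg]
      exact Real.cos_nonpos_of_pi_div_two_le_of_le (by linarith) (by linarith)
    have e3 : ang a = Real.pi := by
      by_contra hne
      have hlt : ang a < Real.pi := lt_of_le_of_ne hA2 hne
      have hsa : 0 < Real.sin (ang a) := Real.sin_pos_of_pos_of_lt_pi (by linarith) hlt
      have hca : Real.cos (ang a) < 0 :=
        Real.cos_neg_of_pi_div_two_lt_of_lt e1 (by linarith)
      have r1 : (a.re : ℝ) < 0 := by
        rw [pa1]; exact mul_neg_of_pos_of_neg (sqrt_pos' a0) hca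
      have r2 : (0 : ℝ) < a.im := by
        rw [pa2]; exact mul_pos (sqrt_pos' a0) hsa
      have r3 : (b.re : ℝ) ≤ 0 := by
        rw [pb1]; exact mul_nonpos_of_nonneg_of_nonpos (sqrt_pos' b0).le hcb
      have r4 : (b.im : ℝ) < 0 := by
        rw [pb2]; exact mul_neg_of_pos_of_neg (sqrt_pos' b0) hsb
      have i1 : a.re < 0 := by exact_mod_cast r1
      have i2 : 0 < a.im := by exact_mod_cast r2
      have i3 : b.re ≤ 0 := by exact_mod_cast r3
      have i4 : b.im < 0 := by exact_mod_cast r4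
      unfold dt at hab
      have j1 : 1 ≤ a.re * b.im := by nlinarith
      have j2 : a.im * b.re ≤ 0 := mul_nonpos_of_nonneg_of_nonpos i2.le i3
      have j3 : a.im * b.re = 0 := by linarith
      have j4 : b.re = 0 := by
        rcases mul_eq_zero.1 j3 with h | h
        · omega
        · exact h
      have j5 : a.re * b.im = 1 := by linarith
      have j6 : a.re = -1 ∧ b.im = -1 := by
        rcases Int.mul_eq_one_iff_eq_one_or_neg_one.1 j5 with h | h
        · omega
        · exact h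
      have k1 : (nm a : ℝ) < nm (a + b) := lt_of_le_of_lt hna hYs
      have k2 : (nm a : ℤ) < nm (a + b) := by exact_mod_cast k1
      rw [nmZ, nmZ] at k2
      simp only [QuadraticAlgebra.re_add, QuadraticAlgebra.im_add] at k2
      rw [j4, j6.1, j6.2] at k2
      nlinarith
    rw [e3] at s2
    have f1 : ang z < 0 := by
      rcases sin_pos_cases (by linarith) s2 with ⟨d, -⟩ | d <;> linarith
    have f2 : ang z < ang b := by
      rcases sin_pos_cases (by linarith) s3 with ⟨d, -⟩ | d <;> linarith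
    have f3 : ang z' < ang b := by
      by_contra hc
      exact nb1 ⟨f2.le, not_lt.1 hc⟩
    refine ⟨dt_pos_of_sin a0 z0' ?_,
      dt_pos_of_sin z0' b0 (Real.sin_pos_of_pos_of_lt_pi (by linarith) (by linarith))⟩
    rw [e3, Real.sin_sub_pi]
    have := Real.sin_neg_of_neg_of_neg_pi_lt (x := ang z') (by linarith) hW1
    linarith

theorem arc : Pool.Agent.W84.T.S_ARC := by
  classical
  obtain ⟨C, hC, h⟩ := Pool.Agent.W803.GA.sect hD01
  refine ⟨C * Real.pi, by positivity, ?_⟩
  intro X n j hX hn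
  have hpi := Real.pi_pos
  have hpi1 : 1 ≤ Real.pi := by linarith [Real.pi_gt_three]
  have hn' : (1 : ℝ) ≤ n := by exact_mod_cast hn
  have hn0 : (0 : ℝ) < n := by linarith
  have h1 := h X (Real.pi / n) (2 * Real.pi * (j + 1 / 2) / n - Real.pi) hX (by positivity)
    (div_le_self hpi.le hn')
  have h2 : (((pball 0 1 X).filter (fun z => aix n z = j)).card : ℝ) ≤
      C * (X * (Real.pi / n) + 1) := by
    refine le_trans ?_ h1
    have hsub : (pball 0 1 X).filter (fun z => aix n z = j) ⊆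
        (pball 0 1 X).filter (fun z => ∃ i : ℤ,
          |ang z - (2 * Real.pi * (j + 1 / 2) / n - Real.pi) + 2 * Real.pi * i| ≤ Real.pi / n) := by
      intro z hz
      rw [mem_filter] at hz ⊢
      refine ⟨hz.1, 0, ?_⟩
      have h3 := hz.2
      unfold aix at h3
      rw [Int.floor_eq_iff] at h3
      obtain ⟨h4, h5⟩ := h3
      rw [le_div_iff₀ (by positivity)] at h4
      rw [div_lt_iff₀ (by positivity)] at h5
      have h6 : (ang z - (2 * Real.pi * (j + 1 / 2) / n - Real.pi) + 2 * Real.pi * ((0 : ℤ) : ℝ)) =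
          ((ang z + Real.pi) * n - 2 * Real.pi * (j + 1 / 2)) / n := by
        field_simp
        push_cast
        ring
      rw [h6, abs_div, abs_of_pos hn0]
      gcongr
      rw [abs_le]
      constructor <;> nlinarith
    exact_mod_cast Finset.card_le_card hsub
  refine h2.trans ?_
  have h7 : X * (Real.pi / n) + 1 ≤ Real.pi * (X / n + 1) := by
    have : X * (Real.pi / n) = Real.pi * (X / n) := by ring
    rw [this, mul_add, mul_one]
    linarith
  calc C * (X * (Real.pi / n) + 1) ≤ C * (Real.pi * (X / n + 1)) := by gcongr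
    _ = C * Real.pi * (X / n + 1) := by ring

end Pool.Agent.W359.T
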